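import Mathlib

set_option autoImplicit false

namespace Pool.Agent.H653Z.HB.H937

open Finset

/-- the Bellman function -/
noncomputable def U (x y : ℂ) : ℝ := 8 * ‖x‖ - Real.sqrt (‖x‖ ^ 2 + ‖y‖ ^ 2)

theorem U_self_nonneg (x : ℂ) : 0 ≤ U x x := by
  unfold U
  have h : Real.sqrt (‖x‖ ^ 2 + ‖x‖ ^ 2) ≤ 8 * ‖x‖ := by
    rw [Real.sqrt_le_left (by positivity)]
    nlinarith [sq_nonneg ‖x‖]
  linarith

theorem U_zero_right (x : ℂ) : U x 0 = 7 * ‖x‖ := by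
  unfold U
  simp only [norm_zero, ne_eq, OfNat.ofNat_ne_zero, not_false_eq_true, zero_pow, add_zero]
  rw [Real.sqrt_sq (norm_nonneg _)]
  ring

theorem U_le (x y : ℂ) : U x y ≤ 8 * ‖x‖ - ‖y‖ := by
  unfold U
  have h : ‖y‖ ≤ Real.sqrt (‖x‖ ^ 2 + ‖y‖ ^ 2) := by
    apply Real.le_sqrt_of_sq_le
    nlinarith [sq_nonneg ‖x‖]
  linarith

theorem U_mul (u x y : ℂ) (hu : ‖u‖ = 1) : U (u * x) (u * y) = U x y := by
  unfold U
  simp [hu]

section step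

variable {S : Type*} [Fintype S] (η : S → ℂ)

theorem sum_normSq (h1 : ∀ s, ‖η s‖ = 1) (h2 : ∑ s, η s = 0) (x h : ℂ) :
    ∑ s, ‖x + h * η s‖ ^ 2 = Fintype.card S * (‖x‖ ^ 2 + ‖h‖ ^ 2) := by
  have e : ∀ s, ‖x + h * η s‖ ^ 2 = (‖x‖ ^ 2 + ‖h‖ ^ 2) + 2 * ((starRingEnd ℂ x) * h * η s).re := by
    intro s
    have hs := h1 s
    have hs' : (η s).re ^ 2 + (η s).im ^ 2 = 1 := by
      have := Complex.sq_norm (η s)
      rw [hs, Complex.normSq_apply] at this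
      nlinarith
    rw [Complex.sq_norm, Complex.sq_norm, Complex.sq_norm, Complex.normSq_apply,
      Complex.normSq_apply, Complex.normSq_apply]
    simp only [Complex.add_re, Complex.add_im, Complex.mul_re, Complex.mul_im, Complex.conj_re,
      Complex.conj_im]
    linear_combination (h.re ^ 2 + h.im ^ 2) * hs'
  simp_rw [e]
  rw [Finset.sum_add_distrib, ← Finset.mul_sum, ← Complex.re_sum, ← Finset.mul_sum, h2]
  simp
  ring

theorem sum_im_sq (h1 : ∀ s, ‖η s‖ = 1) (h3 : ∑ s, η s ^ 2 = 0) (h : ℂ) :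
    ∑ s, (h * η s).im ^ 2 = Fintype.card S * (‖h‖ ^ 2 / 2) := by
  have e : ∀ s, (h * η s).im ^ 2 = ‖h‖ ^ 2 / 2 - (h ^ 2 * η s ^ 2).re / 2 := by
    intro s
    have hs := h1 s
    have hn : ‖h * η s‖ ^ 2 = ‖h‖ ^ 2 := by rw [norm_mul, hs, mul_one]
    rw [← mul_pow, ← hn]
    generalize h * η s = z
    rw [Complex.sq_norm, Complex.normSq_apply, sq z, Complex.mul_re]
    ring
  simp_rw [e]
  rw [Finset.sum_sub_distrib, ← Finset.sum_div, ← Finset.sum_div, ← Complex.re_sum,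
    ← Finset.mul_sum, h3]
  simp
  ring

theorem sum_norm_ge (h1 : ∀ s, ‖η s‖ = 1) (h2 : ∑ s, η s = 0) (h3 : ∑ s, η s ^ 2 = 0)
    (x h : ℂ) (hh : h ≠ 0) :
    Fintype.card S * (‖x‖ + ‖h‖ ^ 2 / (4 * (‖x‖ + ‖h‖))) ≤ ∑ s, ‖x + h * η s‖ := by
  obtain ⟨u, hu, hux⟩ := Complex.exists_norm_eq_mul_self x
  have hp : 0 < ‖x‖ + ‖h‖ := add_pos_of_nonneg_of_pos (norm_nonneg _) (norm_pos_iff.mpr hh)
  have e : ∀ s, ‖x‖ + (u * h * η s).re + (u * h * η s).im ^ 2 / (2 * (‖x‖ + ‖h‖))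
      ≤ ‖x + h * η s‖ := by
    intro s
    have hz : ‖x + h * η s‖ = ‖(‖x‖ : ℂ) + u * h * η s‖ := by
      rw [hux, mul_assoc, ← mul_add, norm_mul, hu, one_mul]
    have hle : ‖x + h * η s‖ ≤ ‖x‖ + ‖h‖ := by
      refine (norm_add_le _ _).trans ?_
      rw [norm_mul, h1 s, mul_one]
    set z : ℂ := (‖x‖ : ℂ) + u * h * η s with hzdef
    have hre : z.re = ‖x‖ + (u * h * η s).re := by simp [hzdef]
    have him : z.im = (u * h * η s).im := by simp [hzdef]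
    rw [← hre, ← him, hz]
    rw [hz] at hle
    have hsq : ‖z‖ ^ 2 = z.re ^ 2 + z.im ^ 2 := by
      rw [Complex.sq_norm, Complex.normSq_apply]; ring
    have hre' : z.re ≤ ‖z‖ := Complex.re_le_norm z
    have : z.im ^ 2 / (2 * (‖x‖ + ‖h‖)) ≤ ‖z‖ - z.re := by
      rw [div_le_iff₀ (by positivity)]
      nlinarith
    linarith
  refine le_trans (le_of_eq ?_) (Finset.sum_le_sum fun s _ => e s)
  rw [Finset.sum_add_distrib, Finset.sum_add_distrib, ← Finset.sum_div, sum_im_sq η h1 h3,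
    ← Complex.re_sum, ← Finset.mul_sum, h2, norm_mul, hu]
  simp only [Finset.sum_const, Finset.card_univ, nsmul_eq_mul, mul_zero, Complex.zero_re,
    add_zero, one_mul]
  field_simp
  ring

/-- the step inequality; `k` is either `0` or `h`. -/
theorem step (h1 : ∀ s, ‖η s‖ = 1) (h2 : ∑ s, η s = 0) (h3 : ∑ s, η s ^ 2 = 0)
    (x y h k : ℂ) (hk : ‖k‖ ≤ ‖h‖) :
    Fintype.card S * U x y ≤ ∑ s, U (x + h * η s) (y + k * η s) := by
  by_cases hh : h = 0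
  · subst hh
    have : k = 0 := by simpa using hk
    subst this
    simp
  have hhp : 0 < ‖h‖ := norm_pos_iff.mpr hh
  have hp : 0 < ‖x‖ + ‖h‖ := add_pos_of_nonneg_of_pos (norm_nonneg _) hhp
  set g := Real.sqrt (‖x‖ ^ 2 + ‖y‖ ^ 2) with hg
  have hg0 : 0 ≤ g := Real.sqrt_nonneg _
  have hgsq : g ^ 2 = ‖x‖ ^ 2 + ‖y‖ ^ 2 := Real.sq_sqrt (by positivity)
  have hgx : ‖x‖ ≤ g := by
    apply Real.le_sqrt_of_sq_le
    nlinarith [sq_nonneg ‖y‖]
  set δ := 2 * ‖h‖ ^ 2 / (‖x‖ + ‖h‖) with hδ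
  have hδp : 0 < δ := by positivity
  have hδe : δ * (‖x‖ + ‖h‖) = 2 * ‖h‖ ^ 2 := by rw [hδ]; field_simp
  have hm : 0 < g + δ := by positivity
  have key : g ^ 2 + 2 * ‖h‖ ^ 2 ≤ (g + δ) ^ 2 := by
    have h4 : ‖x‖ + ‖h‖ ≤ 2 * g + δ := by
      have : (‖h‖ - ‖x‖) ≤ δ := by
        rw [hδ, le_div_iff₀ hp]
        nlinarith [sq_nonneg ‖x‖, sq_nonneg ‖h‖]
      linarith
    nlinarith
  have e : ∀ s, 8 * ‖x + h * η s‖ - ((‖x + h * η s‖ ^ 2 + ‖y + k * η s‖ ^ 2) / (2 * (g + δ))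
      + (g + δ) / 2) ≤ U (x + h * η s) (y + k * η s) := by
    intro s
    unfold U
    set A := ‖x + h * η s‖ ^ 2 + ‖y + k * η s‖ ^ 2 with hA
    have hA0 : 0 ≤ A := by positivity
    have : Real.sqrt A ≤ A / (2 * (g + δ)) + (g + δ) / 2 := by
      have hs := Real.sq_sqrt hA0
      have : A / (2 * (g + δ)) + (g + δ) / 2 - Real.sqrt A
          = (Real.sqrt A - (g + δ)) ^ 2 / (2 * (g + δ)) := by
        field_simp
        linear_combination (-1) * hs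
      have h5 : 0 ≤ (Real.sqrt A - (g + δ)) ^ 2 / (2 * (g + δ)) := by positivity
      linarith
    linarith
  refine le_trans ?_ (Finset.sum_le_sum fun s _ => e s)
  rw [Finset.sum_sub_distrib, Finset.sum_add_distrib, ← Finset.mul_sum, ← Finset.sum_div,
    Finset.sum_add_distrib, sum_normSq η h1 h2, sum_normSq η h1 h2]
  have hn := sum_norm_ge η h1 h2 h3 x h hh
  simp only [Finset.sum_const, Finset.card_univ, nsmul_eq_mul]
  set n : ℝ := (Fintype.card S : ℝ) with hndef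
  have hn0 : 0 ≤ n := Nat.cast_nonneg _
  have h6 : (n * (‖x‖ ^ 2 + ‖h‖ ^ 2) + n * (‖y‖ ^ 2 + ‖k‖ ^ 2)) / (2 * (g + δ))
      ≤ n * ((g + δ) / 2) := by
    rw [div_le_iff₀ (by positivity)]
    have hk2 : ‖k‖ ^ 2 ≤ ‖h‖ ^ 2 := pow_le_pow_left₀ (norm_nonneg _) hk 2
    have : (‖x‖ ^ 2 + ‖h‖ ^ 2) + (‖y‖ ^ 2 + ‖k‖ ^ 2) ≤ (g + δ) ^ 2 := by linarith
    nlinarith [mul_le_mul_of_nonneg_left this hn0]
  have h7 : 8 * (‖h‖ ^ 2 / (4 * (‖x‖ + ‖h‖))) = δ := by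
    rw [hδ]; field_simp; ring
  unfold U
  rw [← hg]
  have h8 : n * (8 * ‖x‖ + δ) ≤ 8 * ∑ s, ‖x + h * η s‖ := by
    rw [← h7]; linarith
  nlinarith

end step

theorem eps_norm (q : ℕ) [NeZero q] (s : ZMod q) : ‖(ZMod.stdAddChar s : ℂ)‖ = 1 :=
  AddChar.norm_apply _ _

theorem eps_sum (q : ℕ) [NeZero q] (hq : 3 ≤ q) : ∑ s : ZMod q, (ZMod.stdAddChar s : ℂ) = 0 := by
  have h := AddChar.sum_mulShift (1 : ZMod q) (ZMod.isPrimitive_stdAddChar q)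
  have h1 : (1 : ZMod q) ≠ 0 := by
    intro h0
    have : ((1 : ℕ) : ZMod q) = 0 := by simpa using h0
    rw [ZMod.natCast_eq_zero_iff] at this
    have := Nat.le_of_dvd (by norm_num) this
    omega
  simpa [h1] using h

theorem eps_sq_sum (q : ℕ) [NeZero q] (hq : 3 ≤ q) :
    ∑ s : ZMod q, (ZMod.stdAddChar s : ℂ) ^ 2 = 0 := by
  have h := AddChar.sum_mulShift (2 : ZMod q) (ZMod.isPrimitive_stdAddChar q)
  have h1 : (2 : ZMod q) ≠ 0 := by
    intro h0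
    have : ((2 : ℕ) : ZMod q) = 0 := by simpa using h0
    rw [ZMod.natCast_eq_zero_iff] at this
    have := Nat.le_of_dvd (by norm_num) this
    omega
  rw [if_neg h1] at h
  rw [← Nat.cast_zero, ← h]
  refine Finset.sum_congr rfl fun s _ => ?_
  rw [mul_two, AddChar.map_add_eq_mul, sq]

theorem step_eps (q : ℕ) [NeZero q] (hq : 3 ≤ q) (x y h k : ℂ) (hk : ‖k‖ ≤ ‖h‖) :
    q * U x y ≤ ∑ s : ZMod q, U (x + h * ZMod.stdAddChar s) (y + k * ZMod.stdAddChar s) := by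
  have := step (fun s : ZMod q => (ZMod.stdAddChar s : ℂ)) (eps_norm q) (eps_sum q hq)
    (eps_sq_sum q hq) x y h k hk
  rwa [ZMod.card] at this

theorem step_atom (q : ℕ) [NeZero q] (hq : 3 ≤ q) (x c γ : ℂ) :
    q * U c γ ≤ ∑ s : ZMod q, U (x + c * ZMod.stdAddChar s) (x + γ * ZMod.stdAddChar s) := by
  have := step (fun s : ZMod q => starRingEnd ℂ (ZMod.stdAddChar s : ℂ))
    (fun s => by rw [Complex.norm_conj, eps_norm])
    (by rw [← map_sum, eps_sum q hq, map_zero])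
    (by simp_rw [← map_pow]; rw [← map_sum, eps_sq_sum q hq, map_zero]) c γ x x le_rfl
  rw [ZMod.card] at this
  refine this.trans (le_of_eq (Finset.sum_congr rfl fun s _ => ?_))
  have hs := eps_norm q s
  have hc : (ZMod.stdAddChar s : ℂ) * starRingEnd ℂ (ZMod.stdAddChar s : ℂ) = 1 := by
    rw [Complex.mul_conj, Complex.normSq_eq_norm_sq, hs]; simp
  rw [← U_mul (ZMod.stdAddChar s : ℂ) _ _ hs]
  congr 1
  · linear_combination x * hc
  · linear_combination x * hc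

end Pool.Agent.H653Z.HB.H937
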