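import Pool.Agent.H653Z.HB.Defs
import Pool.Agent.H937Z.HB.Step

set_option autoImplicit false
open MeasureTheory Filter Topology

namespace Pool.Agent.H653Z.HB.H937

/-- the Bellman property of an ordered system of functions -/
def Star {ι Ω : Type} [Fintype ι] [LinearOrder ι] [Fintype Ω] (b : ι → Ω → ℂ) : Prop :=
  ∀ i, ∃ w : ℝ, 0 < w ∧ ∀ (c : ι → ℂ) (γ : ℂ),
    w * U (c i) γ ≤ ∑ a, U (∑ j, c j * b j a) ((∑ j, (if j < i then c j else 0) * b j a) + γ * b i a)

/-- a space spanned by a system with the Bellman property -/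
def Sys {Ω : Type} [Fintype Ω] (V : Submodule ℂ (Ω → ℂ)) : Prop :=
  ∃ (ι : Type) (_ : Fintype ι) (_ : LinearOrder ι) (b : ι → Ω → ℂ),
    Nonempty ι ∧ Star b ∧ (∀ i, b i ∈ V) ∧ ∀ F ∈ V, ∃ c : ι → ℂ, ∀ a, F a = ∑ j, c j * b j a

theorem star_unique {Ω : Type} [Fintype Ω] [Unique Ω] :
    Star (ι := Unit) (Ω := Ω) (fun _ _ => (1 : ℂ)) := by
  intro i
  refine ⟨1, one_pos, fun c γ => ?_⟩
  simp

theorem sum_lex_prod {ι κ : Type} [Fintype ι] [Fintype κ] (f : ι ×ₗ κ → ℂ) :
    ∑ p, f p = ∑ i, ∑ k, f (toLex (i, k)) := by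
  rw [← Fintype.sum_prod_type' (fun i k => f (toLex (i, k)))]
  exact (Equiv.sum_comp toLex f).symm

theorem sum_lex_sum {ι κ : Type} [Fintype ι] [Fintype κ] (f : ι ⊕ₗ κ → ℂ) :
    ∑ p, f p = ∑ i, f (toLex (Sum.inl i)) + ∑ k, f (toLex (Sum.inr k)) := by
  rw [← Fintype.sum_sum_type (fun p => f (toLex p))]
  exact (Equiv.sum_comp toLex f).symm

theorem star_prod {ι κ Ω Ω' Ω'' : Type} [Fintype ι] [LinearOrder ι] [Fintype κ] [LinearOrder κ]
    [Fintype Ω] [Fintype Ω'] [Fintype Ω''] (e : Ω'' ≃ Ω × Ω')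
    (b : ι → Ω → ℂ) (b' : κ → Ω' → ℂ) (hb : Star b) (hb' : Star b') :
    Star (ι := ι ×ₗ κ) (fun p a => b (ofLex p).1 (e a).1 * b' (ofLex p).2 (e a).2) := by
  intro p
  obtain ⟨⟨i, k⟩, rfl⟩ := toLex.surjective p
  obtain ⟨w, hw, h⟩ := hb i
  obtain ⟨w', hw', h'⟩ := hb' k
  refine ⟨w * w', mul_pos hw hw', fun c γ => ?_⟩
  rw [← Equiv.sum_comp e.symm, Fintype.sum_prod_type_right]
  simp only [Equiv.apply_symm_apply, ofLex_toLex]
  have h2 := h' (fun l => c (toLex (i, l))) γ
  rw [mul_assoc]
  refine (mul_le_mul_of_nonneg_left h2 hw.le).trans ?_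
  rw [Finset.mul_sum]
  refine Finset.sum_le_sum fun a' _ => ?_
  refine (h (fun j => ∑ l, c (toLex (j, l)) * b' l a') _).trans (le_of_eq ?_)
  refine Finset.sum_congr rfl fun a _ => ?_
  congr 1
  · rw [sum_lex_prod]
    refine Finset.sum_congr rfl fun j _ => ?_
    rw [Finset.sum_mul]
    refine Finset.sum_congr rfl fun l _ => ?_
    simp only [ofLex_toLex]
    ring
  · rw [sum_lex_prod, add_mul, ← add_assoc]
    congr 1
    · have : ∀ j, (∑ l, (if toLex (j, l) < toLex (i, k) then c (toLex (j, l)) else 0) *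
          (b (ofLex (toLex (j, l))).1 a * b' (ofLex (toLex (j, l))).2 a')) =
          (if j < i then ∑ l, c (toLex (j, l)) * b' l a' else 0) * b j a +
          (if j = i then (∑ l, (if l < k then c (toLex (i, l)) else 0) * b' l a') * b i a else 0) := by
        intro j
        simp only [ofLex_toLex, Prod.Lex.toLex_lt_toLex]
        rcases lt_trichotomy j i with hji | hji | hji
        · simp only [hji, true_or, if_true, hji.ne, if_false, add_zero, Finset.sum_mul]
          refine Finset.sum_congr rfl fun l _ => by ring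
        · subst hji
          simp only [lt_irrefl, false_or, true_and, if_false, if_true, zero_mul, zero_add,
            Finset.sum_mul]
          refine Finset.sum_congr rfl fun l _ => by ring
        · simp [hji.not_gt, hji.ne']
      simp_rw [this]
      rw [Finset.sum_add_distrib]
      simp
    · ring

theorem sys_mart (q : ℕ) [NeZero q] (hq : 3 ≤ q) (N : ℕ) : Sys (Mart q N) := by
  induction N with
  | zero =>
    let _ : Unique (Om q 0) := inferInstanceAs (Unique Unit)
    refine ⟨Unit, inferInstance, inferInstance, fun _ _ => 1, inferInstance, star_unique,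
      fun _ => trivial, fun F _ => ⟨fun _ => F default, fun a => ?_⟩⟩
    simp [Subsingleton.elim a default]
  | succ N ih =>
    obtain ⟨ι, _, _, b, hne, hb, hmem, hspan⟩ := ih
    have hq0 : (0 : ℝ) < q := by exact_mod_cast (by omega : 0 < q)
    let n := Fintype.card (Om q N)
    let e : Om q N ≃ Fin n := Fintype.equivFin _
    let B : ι ⊕ₗ Fin n → Om q N × ZMod q → ℂ := fun p a =>
      Sum.elim (fun i => b i a.1)
        (fun t => if e a.1 = t then (ZMod.stdAddChar a.2 : ℂ) else 0) (ofLex p)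
    have hsum : ∀ (c : ι ⊕ₗ Fin n → ℂ) (a : Om q N) (s : ZMod q),
        ∑ p, c p * B p (a, s) = ∑ i, c (toLex (Sum.inl i)) * b i a +
          c (toLex (Sum.inr (e a))) * ZMod.stdAddChar s := by
      intro c a s
      rw [sum_lex_sum]
      simp [B]
    refine ⟨ι ⊕ₗ Fin n, inferInstance, inferInstance, B, ⟨toLex (Sum.inl hne.some)⟩, ?_, ?_, ?_⟩
    · intro p
      obtain ⟨p, rfl⟩ := toLex.surjective p
      rcases p with i | t
      · obtain ⟨w, hw, h⟩ := hb i
        refine ⟨q * w, mul_pos hq0 hw, fun c γ => ?_⟩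
        rw [sum_om_succ, mul_assoc]
        refine (mul_le_mul_of_nonneg_left (h (fun j => c (toLex (Sum.inl j))) γ) hq0.le).trans ?_
        rw [Finset.mul_sum]
        refine Finset.sum_le_sum fun a _ => ?_
        refine (step_eps q hq _ _ (c (toLex (Sum.inr (e a)))) 0 (by simp)).trans (le_of_eq ?_)
        refine Finset.sum_congr rfl fun s _ => ?_
        rw [hsum, hsum]
        simp [B]
      · refine ⟨q, hq0, fun c γ => ?_⟩
        rw [sum_om_succ]
        have hterm : ∀ a : Om q N, (if a = e.symm t then q * U (c (toLex (Sum.inr t))) γ else 0) ≤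
            ∑ s : ZMod q, U (∑ j, c j * B j (a, s))
              ((∑ j, (if j < toLex (Sum.inr t) then c j else 0) * B j (a, s)) +
                γ * B (toLex (Sum.inr t)) (a, s)) := by
          intro a
          simp_rw [hsum]
          rcases lt_trichotomy (e a) t with hat | hat | hat
          · have hne : a ≠ e.symm t := by
              rintro rfl
              simp at hat
            rw [if_neg hne]
            refine Finset.sum_nonneg fun s _ => ?_
            simp [B, hat, hat.ne, U_self_nonneg]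
          · subst hat
            rw [if_pos (by simp)]
            refine (step_atom q hq (∑ i, c (toLex (Sum.inl i)) * b i a) _ _).trans (le_of_eq ?_)
            refine Finset.sum_congr rfl fun s _ => ?_
            simp [B]
          · have hne : a ≠ e.symm t := by
              rintro rfl
              simp at hat
            rw [if_neg hne]
            refine (mul_nonneg hq0.le (U_self_nonneg (∑ i, c (toLex (Sum.inl i)) * b i a))).trans ?_
            refine (step_eps q hq _ _ (c (toLex (Sum.inr (e a)))) 0 (by simp)).trans (le_of_eq ?_)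
            refine Finset.sum_congr rfl fun s _ => ?_
            simp [B, hat.not_gt, hat.ne']
        refine le_trans (le_of_eq ?_) (Finset.sum_le_sum fun a _ => hterm a)
        simp
    · intro p
      obtain ⟨p, rfl⟩ := toLex.surjective p
      rcases p with i | t
      · exact ⟨b i, hmem i, 0, fun a s => by simp [B]⟩
      · exact ⟨0, Submodule.zero_mem _, fun a => if e a = t then 1 else 0, fun a s => by simp [B]⟩
    · rintro F ⟨F', hF', φ, hF⟩
      obtain ⟨c, hc⟩ := hspan F' hF'
      refine ⟨fun p => Sum.elim c (fun t => φ (e.symm t)) (ofLex p), ?_⟩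
      rintro ⟨a, s⟩
      rw [hsum, hF, hc]
      simp

theorem cons_mem_Hs (q : ℕ) [NeZero q] (N d : ℕ) (F : Om q N → ℂ) (hF : F ∈ Mart q N)
    (G : (Fin d → Om q N) → ℂ) (hG : G ∈ Hs q N d) :
    (fun a : Fin (d + 1) → Om q N => F (a 0) * G (Fin.tail a)) ∈ Hs q N (d + 1) := by
  induction hG using Submodule.span_induction with
  | mem G hG =>
    obtain ⟨F', hF', rfl⟩ := hG
    refine Submodule.subset_span ⟨Fin.cons F F', fun l => ?_, ?_⟩
    · refine Fin.cases ?_ (fun l => ?_) l
      · simpa using hF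
      · simpa using hF' l
    · funext a
      rw [Fin.prod_univ_succ]
      simp [Fin.tail]
  | zero =>
    have : (fun a : Fin (d + 1) → Om q N => F (a 0) * (0 : (Fin d → Om q N) → ℂ) (Fin.tail a)) = 0 := by
      funext a; simp
    rw [this]; exact Submodule.zero_mem _
  | add G G' _ _ h1 h2 =>
    have : (fun a : Fin (d + 1) → Om q N => F (a 0) * (G + G') (Fin.tail a)) =
        (fun a : Fin (d + 1) → Om q N => F (a 0) * G (Fin.tail a)) +
        (fun a : Fin (d + 1) → Om q N => F (a 0) * G' (Fin.tail a)) := by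
      funext a; simp [mul_add]
    rw [this]; exact Submodule.add_mem _ h1 h2
  | smul c G _ h1 =>
    have : (fun a : Fin (d + 1) → Om q N => F (a 0) * (c • G) (Fin.tail a)) =
        c • (fun a : Fin (d + 1) → Om q N => F (a 0) * G (Fin.tail a)) := by
      funext a; simp; ring
    rw [this]; exact Submodule.smul_mem _ c h1

theorem span_rep {ι Ω : Type} [Fintype ι] (b : ι → Ω → ℂ) (S : Set (Ω → ℂ))
    (h : ∀ F ∈ S, ∃ c : ι → ℂ, ∀ a, F a = ∑ j, c j * b j a) :
    ∀ F ∈ Submodule.span ℂ S, ∃ c : ι → ℂ, ∀ a, F a = ∑ j, c j * b j a := by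
  intro F hF
  induction hF using Submodule.span_induction with
  | mem G hG => exact h G hG
  | zero => exact ⟨0, fun a => by simp⟩
  | add G G' _ _ h1 h2 =>
    obtain ⟨c, hc⟩ := h1
    obtain ⟨c', hc'⟩ := h2
    exact ⟨c + c', fun a => by simp [hc, hc', add_mul, Finset.sum_add_distrib]⟩
  | smul r G _ h1 =>
    obtain ⟨c, hc⟩ := h1
    exact ⟨r • c, fun a => by simp [hc, Finset.mul_sum, mul_assoc]⟩

theorem sys_Hs (q : ℕ) [NeZero q] (hq : 3 ≤ q) (N d : ℕ) : Sys (Hs q N d) := by
  induction d with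
  | zero =>
    refine ⟨Unit, inferInstance, inferInstance, fun _ _ => 1, inferInstance, star_unique,
      fun _ => ?_, fun F _ => ⟨fun _ => F default, fun a => ?_⟩⟩
    · exact Submodule.subset_span ⟨fun l => l.elim0, fun l => l.elim0, by simp⟩
    · simp [Subsingleton.elim a default]
  | succ d ih =>
    obtain ⟨ι, _, _, b, hne, hb, hmem, hspan⟩ := sys_mart q hq N
    obtain ⟨κ, _, _, b', hne', hb', hmem', hspan'⟩ := ih
    refine ⟨ι ×ₗ κ, inferInstance, inferInstance, _, ⟨toLex (hne.some, hne'.some)⟩,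
      star_prod (Fin.consEquiv (fun _ : Fin (d + 1) => Om q N)).symm b b' hb hb', ?_, ?_⟩
    · intro p
      exact cons_mem_Hs q N d _ (hmem _) _ (hmem' _)
    · refine span_rep _ _ ?_
      rintro G ⟨F, hF, rfl⟩
      obtain ⟨c, hc⟩ := hspan (F 0) (hF 0)
      obtain ⟨c', hc'⟩ := hspan' (fun a => ∏ l : Fin d, F l.succ (a l))
        (Submodule.subset_span ⟨fun l => F l.succ, fun l => hF _, rfl⟩)
      refine ⟨fun p => c (ofLex p).1 * c' (ofLex p).2, fun a => ?_⟩
      rw [sum_lex_prod]
      show ∏ l, F l (a l) = _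
      rw [Fin.prod_univ_succ, hc]
      have := hc' (Fin.tail a)
      simp only [Fin.tail] at this
      rw [this, Finset.sum_mul_sum]
      refine Finset.sum_congr rfl fun i _ => Finset.sum_congr rfl fun k _ => ?_
      simp only [ofLex_toLex, Fin.consEquiv_symm_apply]
      ring

theorem good_of_sys {Ω : Type} [Fintype Ω] (V : Submodule ℂ (Ω → ℂ)) (hV : Sys V) :
    Good 8 (ContinuousLinearMap.id ℂ
      (V.comap (WithLp.linearEquiv 1 ℂ (Ω → ℂ)).toLinearMap : Submodule ℂ (L1 Ω))) := by
  classical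
  obtain ⟨ι, _, _, b, hne, hb, hmem, hspan⟩ := hV
  set W : Submodule ℂ (L1 Ω) := V.comap (WithLp.linearEquiv 1 ℂ (Ω → ℂ)).toLinearMap with hW
  let v : ι → W := fun i => ⟨WithLp.toLp 1 (b i), hmem i⟩
  have hcomb : ∀ (c : ι → ℂ) (a : Ω), ((∑ j, c j • v j : W) : L1 Ω) a = ∑ j, c j * b j a := by
    intro c a
    simp [v]
  have hnorm : ∀ x : W, ‖x‖ = ∑ a, ‖(x : L1 Ω) a‖ := fun x => PiLp.norm_eq_of_L1 (x : L1 Ω)
  have hli : LinearIndependent ℂ v := by
    rw [Fintype.linearIndependent_iff]
    intro c hc i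
    obtain ⟨w, hw, h⟩ := hb i
    have h1 := h c 0
    have h2 : ∀ a, ∑ j, c j * b j a = 0 := by
      intro a
      rw [← hcomb, hc]; simp
    simp_rw [h2] at h1
    rw [U_zero_right] at h1
    have h3 : ∑ a, U 0 ((∑ j, (if j < i then c j else 0) * b j a) + 0 * b i a) ≤ 0 := by
      refine Finset.sum_nonpos fun a _ => (U_le _ _).trans ?_
      simp
    have h4 : w * (7 * ‖c i‖) ≤ 0 := h1.trans h3
    have h5 : ‖c i‖ ≤ 0 := by
      by_contra h6
      push Not at h6
      have : 0 < w * (7 * ‖c i‖) := by positivity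
      linarith
    exact norm_le_zero_iff.mp h5
  have hsp : ⊤ ≤ Submodule.span ℂ (Set.range v) := by
    intro x _
    obtain ⟨c, hc⟩ := hspan (x : L1 Ω).ofLp x.2
    rw [Submodule.mem_span_range_iff_exists_fun]
    refine ⟨c, Subtype.ext ?_⟩
    ext a
    rw [hcomb, ← hc]
  let β : Module.Basis ι ℂ W := Module.Basis.mk hli hsp
  have hβ : ∀ i, β i = v i := fun i => Module.Basis.mk_apply hli hsp i
  let D := Fintype.card ι
  let e : Fin D ≃o ι := monoEquivOfFin ι rfl
  let u : ℕ → W := fun n => if h : n < D then v (e ⟨n, h⟩) else 0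
  let g : ℕ → W →L[ℂ] ℂ := fun n =>
    if h : n < D then LinearMap.toContinuousLinearMap (β.coord (e ⟨n, h⟩)) else 0
  have hu : ∀ n : Fin D, u n = v (e n) := fun n => by simp [u]
  have hg : ∀ (n : Fin D) x, g n x = β.repr x (e n) := fun n x => by simp [g]
  have hall : ∀ x : W, ∑ j, β.repr x j • v j = x := by
    intro x
    simp_rw [← hβ]
    exact β.sum_repr x
  have hfull : ∀ x : W, ∑ i ∈ Finset.range D, g i x • u i = x := by
    intro x
    rw [Finset.sum_range]
    simp_rw [hu, hg]
    exact (Equiv.sum_comp e.toEquiv (fun j => β.repr x j • v j)).trans (hall x)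
  refine ⟨D, u, g, Fintype.card_pos, ?_, fun x => (hfull x).symm, ?_⟩
  · intro i hi j hj
    rw [hg ⟨i, hi⟩, hu ⟨j, hj⟩, ← hβ, β.repr_self, Finsupp.single_apply]
    simp [eq_comm]
  · intro r hr x
    rcases hr.eq_or_lt with rfl | hr
    · rw [hfull]
      nlinarith [norm_nonneg x]
    · have hpart : ∑ i ∈ Finset.range r, g i x • u i =
          ∑ j, (if j < e ⟨r, hr⟩ then β.repr x j else 0) • v j := by
        rw [← Equiv.sum_comp e.toEquiv]
        have : ∀ n : Fin D, (if e.toEquiv n < e ⟨r, hr⟩ then β.repr x (e.toEquiv n) else 0) •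
            v (e.toEquiv n) = if (n : ℕ) < r then g n x • u n else 0 := by
          intro n
          have h1 : e.toEquiv n < e ⟨r, hr⟩ ↔ (n : ℕ) < r := e.lt_iff_lt
          rw [hu, hg]
          by_cases h2 : (n : ℕ) < r
          · rw [if_pos (h1.mpr h2), if_pos h2]; rfl
          · rw [if_neg (mt h1.mp h2), if_neg h2, zero_smul]
        simp_rw [this]
        rw [← Finset.sum_range (fun n => if n < r then g n x • u n else 0), ← Finset.sum_filter]
        congr 1
        ext n
        simp only [Finset.mem_range, Finset.mem_filter]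
        omega
      rw [hpart, hnorm, hnorm]
      obtain ⟨w, hw, h⟩ := hb (e ⟨r, hr⟩)
      have h1 := h (fun j => β.repr x j) 0
      rw [U_zero_right] at h1
      have h2 : (0 : ℝ) ≤ w * (7 * ‖β.repr x (e ⟨r, hr⟩)‖) := by positivity
      have h3 := (h2.trans h1).trans (Finset.sum_le_sum fun a _ => U_le _ _)
      rw [Finset.sum_sub_distrib, ← Finset.mul_sum] at h3
      simp_rw [hcomb]
      have h4 : ∀ a, (x : L1 Ω) a = ∑ j, β.repr x j * b j a := by
        intro a
        rw [← hcomb, hall]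
      simp_rw [h4]
      simp only [zero_mul, add_zero] at h3
      linarith

end Pool.Agent.H653Z.HB.H937

namespace Pool.Agent.H653Z.HB

theorem good_HH (q : ℕ) [NeZero q] (hq : 3 ≤ q) (N d : ℕ) :
    Good 8 (ContinuousLinearMap.id ℂ (HH q N d)) :=
  H937.good_of_sys _ (H937.sys_Hs q hq N d)

end Pool.Agent.H653Z.HB
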